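import Pool.Agent.Helper32_NJ.Stmts

/-!
# Squad NJ: modules ST5 and ST6
-/

set_option autoImplicit false

namespace Pool.Agent.NJ.H58

open Pool.Agent.NJ

theorem leg_congr (p : ℕ) [Fact p.Prime] {a b : ℤ} (h : (p : ℤ) ∣ a - b) :
    legendreSym p a = legendreSym p b := by
  have h1 : ((a : ℤ) : ZMod p) = ((b : ℤ) : ZMod p) := by
    have := (ZMod.intCast_zmod_eq_zero_iff_dvd (a - b) p).2 h
    rw [Int.cast_sub] at this
    exact sub_eq_zero.1 this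
  unfold legendreSym
  rw [h1]

theorem leg_sq (p : ℕ) [Fact p.Prime] (a : ℤ) {x : ℤ} (h : ¬ (p : ℤ) ∣ x) :
    legendreSym p (a * x ^ 2) = legendreSym p a := by
  have h1 : ((x : ℤ) : ZMod p) ≠ 0 := fun h2 => h ((ZMod.intCast_zmod_eq_zero_iff_dvd x p).1 h2)
  rw [legendreSym.mul, legendreSym.sq_one' p h1, mul_one]

theorem leg_unit (p : ℕ) [Fact p.Prime] {a : ℤ} (h : ¬ (p : ℤ) ∣ a) :
    legendreSym p a * legendreSym p a = 1 := by
  have h1 : ((a : ℤ) : ZMod p) ≠ 0 := fun h2 => h ((ZMod.intCast_zmod_eq_zero_iff_dvd a p).1 h2)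
  have := legendreSym.sq_one p h1
  rwa [pow_two] at this

theorem pow_unit_eq {p : ℤ} (hp : Prime p) : ∀ (a b : ℕ) {u v : ℤ}, ¬ p ∣ u → ¬ p ∣ v →
    p ^ a * u = p ^ b * v → a = b ∧ u = v := by
  intro a
  induction a with
  | zero =>
    intro b u v hu hv h
    cases b with
    | zero => exact ⟨rfl, by simpa using h⟩
    | succ b =>
      exfalso
      apply hu
      rw [pow_zero, one_mul] at h
      rw [h, pow_succ]
      exact ⟨p ^ b * v, by ring⟩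
  | succ a ih =>
    intro b u v hu hv h
    cases b with
    | zero =>
      exfalso
      apply hv
      rw [pow_zero, one_mul] at h
      rw [← h, pow_succ]
      exact ⟨p ^ a * u, by ring⟩
    | succ b =>
      have h1 : p ^ a * u = p ^ b * v := by
        refine mul_left_cancel₀ hp.ne_zero ?_
        linear_combination h
      obtain ⟨h2, h3⟩ := ih b hu hv h1
      exact ⟨by rw [h2], h3⟩

theorem exists_pow {p : ℤ} (hp : Prime p) {x : ℤ} (hx : x ≠ 0) : ∃ (k : ℕ) (y : ℤ),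
    x = p ^ k * y ∧ ¬ p ∣ y := by
  have h1 : FiniteMultiplicity p x := FiniteMultiplicity.of_prime_left hp hx
  obtain ⟨y, h2, h3⟩ := h1.exists_eq_pow_mul_and_not_dvd
  exact ⟨_, y, h2, h3⟩

theorem not_dvd_s {r s : ℤ} {p : ℤ} (hp : Prime p) (h : IsCoprime r s) (hr : p ∣ r) : ¬ p ∣ s :=
  fun hs => hp.not_isUnit (h.isUnit_of_dvd' hr hs)

/-- **ST5** -/
theorem st5 : ST5Stmt := by
  intro e₂ e₃ d₁ d₂ r s w A B P p _ f₂ g₂ hp2 he₂ hf₂ hdiff hd₁ hd₂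
  have hp : Prime (p : ℤ) := Nat.prime_iff_prime_int.1 (Fact.out)
  have h1 := P.h1
  have h2 := P.h2
  have hr : (p : ℤ) ∣ r := by
    have : r = p * (g₂ * B ^ 2 + f₂ * s ^ 2) := by
      rw [hd₂, he₂] at h2
      linear_combination h2
    exact ⟨_, this⟩
  have hs := not_dvd_s hp P.cop hr
  have hA : (p : ℤ) ∣ A := by
    rw [h1] at hr
    rcases hp.dvd_or_dvd hr with h | h
    · exact absurd h hd₁
    · exact hp.dvd_of_dvd_pow h
  obtain ⟨A', hA'⟩ := hA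
  have key : g₂ * B ^ 2 = p * (d₁ * A' ^ 2) + (-f₂) * s ^ 2 := by
    refine mul_left_cancel₀ hp.ne_zero ?_
    rw [hd₂, he₂, h1, hA'] at h2
    linear_combination -h2
  have hB : ¬ (p : ℤ) ∣ B := by
    rintro ⟨B', rfl⟩
    have h3 : (p : ℤ) ∣ f₂ * s ^ 2 := ⟨d₁ * A' ^ 2 - g₂ * p * B' ^ 2, by linear_combination key⟩
    rcases hp.dvd_or_dvd h3 with h | h
    · exact hf₂ h
    · exact hs (hp.dvd_of_dvd_pow h)
  rw [← leg_sq p g₂ hB, ← leg_sq p (-f₂) hs]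
  exact leg_congr p ⟨d₁ * A' ^ 2, by linear_combination key⟩

/-- **ST6** -/
theorem st6 : ST6Stmt := by
  intro e₂ e₃ d₁ d₂ r s w A B P p _ f₂ h g₁ g₂ hp2 he₂ hf₂ hdiff hh hd₁ hd₂
  have hp : Prime (p : ℤ) := Nat.prime_iff_prime_int.1 (Fact.out)
  have hnu : ¬ IsUnit (p : ℤ) := hp.not_isUnit
  have h1 := P.h1
  have h2 := P.h2
  have hw := P.eq
  have hr : (p : ℤ) ∣ r := ⟨g₁ * A ^ 2, by rw [h1, hd₁]; ring⟩
  have hs := not_dvd_s hp P.cop hr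
  have hg₁ : ¬ (p : ℤ) ∣ g₁ := by
    rintro ⟨x, rfl⟩
    exact hnu (P.sq1 (p : ℤ) ⟨x, by rw [hd₁]; ring⟩)
  have hg₂ : ¬ (p : ℤ) ∣ g₂ := by
    rintro ⟨x, rfl⟩
    exact hnu (P.sq2 (p : ℤ) ⟨x, by rw [hd₂]; ring⟩)
  have hA0 : A ≠ 0 := by
    rintro rfl
    apply P.w0
    have : w ^ 2 = 0 := by rw [hw, h1]; ring
    exact pow_eq_zero_iff (two_ne_zero) |>.1 this
  have hB0 : B ≠ 0 := by
    rintro rfl
    apply P.w0
    have : w ^ 2 = 0 := by rw [hw, h2]; ring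
    exact pow_eq_zero_iff (two_ne_zero) |>.1 this
  -- the equation for `w`
  have e1 : w ^ 2 = (p : ℤ) ^ 3 * (g₁ * g₂ * A ^ 2 * B ^ 2 * (g₂ * B ^ 2 + p * h * s ^ 2)) := by
    have e2 : r - e₃ * s ^ 2 = p * (g₂ * B ^ 2 + p * h * s ^ 2) := by
      rw [hd₂] at h2
      linear_combination h2 + s ^ 2 * hdiff
    rw [hw, e2, h2, h1, hd₁, hd₂]
    ring
  have e3 : g₁ * A ^ 2 = f₂ * s ^ 2 + g₂ * B ^ 2 := by
    refine mul_left_cancel₀ hp.ne_zero ?_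
    rw [hd₂, he₂, h1, hd₁] at h2
    linear_combination h2
  obtain ⟨m, w', hw', hw''⟩ := exists_pow hp P.w0
  obtain ⟨a, A', hA', hA''⟩ := exists_pow hp hA0
  obtain ⟨k, B', hB', hB''⟩ := exists_pow hp hB0
  have hww : ¬ (p : ℤ) ∣ w' ^ 2 := fun h => hw'' (hp.dvd_of_dvd_pow h)
  have hAA : ¬ (p : ℤ) ∣ A' ^ 2 := fun h => hA'' (hp.dvd_of_dvd_pow h)
  have hBB : ¬ (p : ℤ) ∣ B' ^ 2 := fun h => hB'' (hp.dvd_of_dvd_pow h)
  have nd : ∀ {x y : ℤ}, ¬ (p : ℤ) ∣ x → ¬ (p : ℤ) ∣ y → ¬ (p : ℤ) ∣ x * y := by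
    intro x y hx hy hxy
    rcases hp.dvd_or_dvd hxy with h | h
    · exact hx h
    · exact hy h
  cases k with
  | zero =>
    exfalso
    rw [pow_zero, one_mul] at hB'
    subst hB'
    have hu : ¬ (p : ℤ) ∣ (g₂ * B ^ 2 + p * h * s ^ 2) := by
      rintro ⟨x, hx⟩
      exact nd hg₂ hBB ⟨x - h * s ^ 2, by linear_combination hx⟩
    have e4 : (p : ℤ) ^ (2 * m) * w' ^ 2 = (p : ℤ) ^ (3 + 2 * a) *
        (g₁ * g₂ * A' ^ 2 * B ^ 2 * (g₂ * B ^ 2 + p * h * s ^ 2)) := by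
      have e5 : w ^ 2 = (p : ℤ) ^ (2 * m) * w' ^ 2 := by rw [hw']; ring
      have e6 : A ^ 2 = (p : ℤ) ^ (2 * a) * A' ^ 2 := by rw [hA']; ring
      rw [← e5, e1, e6]
      ring
    have h5 := (pow_unit_eq hp _ _ hww (nd (nd (nd (nd hg₁ hg₂) hAA) hBB) hu) e4).1
    omega
  | succ k =>
    have hpB : (p : ℤ) ∣ B := ⟨(p : ℤ) ^ k * B', by rw [hB']; ring⟩
    have hpA : ¬ (p : ℤ) ∣ A := by
      rintro ⟨x, hx⟩
      obtain ⟨y, hy⟩ := hpB
      have h3 : (p : ℤ) ∣ f₂ * s ^ 2 := ⟨g₁ * p * x ^ 2 - g₂ * p * y ^ 2, by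
        rw [hx, hy] at e3
        linear_combination -e3⟩
      rcases hp.dvd_or_dvd h3 with h | h
      · exact hf₂ h
      · exact hs (hp.dvd_of_dvd_pow h)
    have hAA2 : ¬ (p : ℤ) ∣ A ^ 2 := fun h => hpA (hp.dvd_of_dvd_pow h)
    have hss : ¬ (p : ℤ) ∣ s ^ 2 := fun h => hs (hp.dvd_of_dvd_pow h)
    have hu : ¬ (p : ℤ) ∣ (h * s ^ 2 + p * ((p : ℤ) ^ (2 * k) * (g₂ * B' ^ 2))) := by
      rintro ⟨x, hx⟩
      exact nd hh hss ⟨x - (p : ℤ) ^ (2 * k) * (g₂ * B' ^ 2), by linear_combination hx⟩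
    have e4 : (p : ℤ) ^ (2 * m) * w' ^ 2 = (p : ℤ) ^ (6 + 2 * k) *
        (g₁ * g₂ * A ^ 2 * B' ^ 2 * (h * s ^ 2 + p * ((p : ℤ) ^ (2 * k) * (g₂ * B' ^ 2)))) := by
      have e5 : w ^ 2 = (p : ℤ) ^ (2 * m) * w' ^ 2 := by rw [hw']; ring
      rw [← e5, e1, hB']
      ring
    obtain ⟨h5, h6⟩ := pow_unit_eq hp _ _ hww (nd (nd (nd (nd hg₁ hg₂) hAA2) hBB) hu) e4
    -- Legendre symbols
    have l1 : legendreSym p (w' ^ 2) = 1 := by
      have := leg_sq p 1 hw''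
      rw [one_mul] at this
      rw [this]
      exact legendreSym.at_one p
    have l2 : legendreSym p (w' ^ 2) = legendreSym p ((g₁ * g₂ * h) * (A * B' * s) ^ 2) := by
      rw [h6]
      exact leg_congr p ⟨g₁ * g₂ * A ^ 2 * B' ^ 2 * ((p : ℤ) ^ (2 * k) * (g₂ * B' ^ 2)), by ring⟩
    rw [leg_sq p _ (nd (nd hpA hB'') hs), l1, legendreSym.mul, legendreSym.mul] at l2
    have l3 : legendreSym p g₁ = legendreSym p f₂ := by
      rw [← leg_sq p g₁ hpA, ← leg_sq p f₂ hs]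
      obtain ⟨y, hy⟩ := hpB
      exact leg_congr p ⟨g₂ * p * y ^ 2, by rw [hy] at e3; linear_combination e3⟩
    rw [l3] at l2
    rw [legendreSym.mul]
    have l4 := leg_unit p hg₂
    linear_combination (legendreSym p g₂) * l2 + (legendreSym p f₂ * legendreSym p h) * l4

end Pool.Agent.NJ.H58
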